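import Pool.Agent.BLP.StmtsE

/-!
# Squad BLP, row E_ELS: law of large numbers for translated starts
-/

noncomputable section

namespace Pool.Agent.BLP.H16

open MeasureTheory ProbabilityTheory Filter Topology Finset
open scoped ENNReal

/-- E_ELS -/
theorem e_els (hT : TrfStmt) : ElsStmt := by
  intro X _ μ B c hS hL A η δ hA hη hδ
  obtain ⟨-, -, -, h4⟩ := hL
  have h6 := (h4 A η hA hη).eventually_lt_const (ENNReal.ofReal_pos.2 hδ)
  obtain ⟨N₀, hN⟩ := eventually_atTop.1 h6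
  refine ⟨N₀, fun k n y hkn => ?_⟩
  obtain ⟨N, hN'⟩ : ∃ N : ℕ, (N : ℤ) = n - k := ⟨(n - k).toNat, by omega⟩
  have hle : N₀ ≤ N := by omega
  have hNr : (n : ℝ) - k = N := by
    have : ((n - k : ℤ) : ℝ) = ((N : ℤ) : ℝ) := by rw [hN']
    push_cast at this
    exact this
  obtain ⟨T, hT1, hT2⟩ := hT X μ B hS k y
  have h7 : μ {x | ∃ e : ℝ, y ≤ e ∧ e ≤ y + A * ((n : ℝ) - k) ∧
        η * ((n : ℝ) - k) < |L (B x) k y n e - c * Real.sqrt (((n : ℝ) - k) * (e - y))|} ≤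
      μ (T ⁻¹' {x | ∃ e : ℝ, 0 ≤ e ∧ e ≤ A * N ∧
    η * N < |L (B x) 0 0 N e - c * Real.sqrt (N * e)|}) := by
    apply measure_mono_ae
    filter_upwards [hT2] with x hx
    rintro ⟨e, he1, he2, he3⟩
    rw [hNr] at he2 he3
    refine ⟨e - y, by linarith, by linarith, ?_⟩
    rw [hx 0 0 N (e - y)]
    have e1 : (0 : ℤ) + k = k := zero_add k
    have e2 : (0 : ℝ) + (y : ℝ) = y := zero_add _
    have e3 : (N : ℤ) + k = n := by omega
    have e4 : e - (y : ℝ) + y = e := by ring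
    rw [e1, e2, e3, e4]
    exact he3
  refine h7.trans ((Measure.le_map_apply hT1.measurable.aemeasurable _).trans ?_)
  rw [hT1.map_eq]
  exact (hN N hle).le

end Pool.Agent.BLP.H16
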